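import Pool.Agent.H1.CPX.CNS
import Pool.Agent.H11.CPX.MED
import Pool.Agent.H23.CPX.FRX
import Pool.Agent.H24.CPX.KHI
import Pool.Agent.H24.CPX.SUMU
import Pool.Agent.H26.CPX.NUB
import Pool.Agent.H27.CPX.INN
import Pool.Agent.H27.CPX.SPL
import Pool.Agent.H30.CPX.LEF
import Pool.Agent.H30.CPX.REC
import Pool.Agent.H30.CPX.STM
import Pool.Agent.H34.CPX.JEN
import Pool.Agent.H36.CPX.FRU
import Pool.Agent.H36.CPX.STX
import Pool.Agent.H38.CPX.WID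
import Pool.Agent.H39.CPX.RMX
import Pool.Agent.H4.CPX.NXY
import Pool.Agent.H45.CPX.TRM
import Pool.Agent.H46.CPX.BIA
import Pool.Agent.H54.CPX.NEG
import Pool.Agent.H60.CPX.LOW
import Pool.Agent.H63.CPX.GRD
import Pool.Agent.H64.CPX.CPU
import Pool.Agent.H67.CPX.CAN
import Pool.Agent.H67.CPX.POS
import Pool.Agent.H68.CPX.CU
import Pool.Agent.H68.CPX.ROO
import Pool.Agent.H72.CPX.VPR
import Pool.Agent.H74.CPX.STH
import Pool.Agent.H75.CPX.CLO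
import Pool.Agent.H75.CPX.PJN
import Pool.Agent.H78.CPX.SUBB
import Pool.Agent.H78.CPX.SYS
import Pool.Agent.H80.CPX.PARM
import Pool.Agent.H81.CPX.FIN
import Pool.Agent.H82.CPE.REQ
import Pool.Agent.H86.CPX.DEP
import Pool.Agent.H98.CPX.PART
import Pool.Agent.H99.CPX.DAG
import Pool.Agent.H99.CPX.OPB

/-! # MP_c62aed_lc, cutting planes and real monotone circuits of any depth: assembly (helper37) -/

namespace Pool.Agent.H37.CPX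

open Pool.Agent

theorem neg' : S_NEG :=
  H54.CPX.pf_NEG H67.CPX.pf_CAN H72.CPX.pf_VPR H99.CPX.pf_OPB H75.CPX.pf_PJN

theorem pos' : S_POS :=
  H67.CPX.pf_POS (H46.CPX.pf_BIA H24.CPX.pf_KHI) H1.CPX.pf_CNS H72.CPX.pf_VPR H75.CPX.pf_PJN

theorem sth' : S_STH :=
  H74.CPX.pf_STH (H60.CPX.pf_LOW neg') H11.CPX.pf_MED H4.CPX.pf_NXY H26.CPX.pf_NUB
    H38.CPX.pf_WID H34.CPX.pf_JEN

theorem stm' (hCJ : S_CJ) : S_STM :=
  H30.CPX.pf_STM hCJ H75.CPX.pf_CLO H38.CPX.pf_WID H24.CPX.pf_SUMU H34.CPX.pf_JEN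

theorem stx' (hCV : S_CV) : S_STX :=
  H36.CPX.pf_STX H63.CPX.pf_GRD H68.CPX.pf_CU hCV H75.CPX.pf_CLO H38.CPX.pf_WID H24.CPX.pf_SUMU
    H34.CPX.pf_JEN

theorem trm' : S_TRM := H45.CPX.pf_TRM H4.CPX.pf_NXY H38.CPX.pf_WID H34.CPX.pf_JEN

theorem part' (hCJ : S_CJ) (hCV : S_CV) : S_PART :=
  H98.CPX.pf_PART (H30.CPX.pf_REC trm' sth' (stm' hCJ) (stx' hCV)) H38.CPX.pf_WID

theorem dag' (hCJ : S_CJ) (hCV : S_CV) : S_DAG :=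
  H99.CPX.pf_DAG H86.CPX.pf_DEP (part' hCJ hCV)
    (H27.CPX.pf_INN (H78.CPX.pf_SUBB H11.CPX.pf_MED) pos' H26.CPX.pf_NUB)
    (H30.CPX.pf_LEF neg' pos' H26.CPX.pf_NUB) (H68.CPX.pf_ROO H26.CPX.pf_NUB H34.CPX.pf_JEN)

theorem cx' (hCJ : S_CJ) (hCV : S_CV) : StatementCX :=
  H81.CPX.pf_FIN H78.CPX.pf_SYS (dag' hCJ hCV) H64.CPX.pf_CPU H36.CPX.pf_FRU H80.CPX.pf_PARM

theorem rmx' (hCJ : S_CJ) (hCV : S_CV) : S_RMX :=
  H39.CPX.pf_RMX (dag' hCJ hCV) H82.CPE.pf_REQ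

end Pool.Agent.H37.CPX
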