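import Pool.Agent.H37.CPX.Asm
import Pool.Agent.H16.CPX.FIR
import Pool.Agent.H27.CPX.CJ

/-! # MP_c62aed_lc, cutting planes and real monotone circuits of any depth: assembly, second part (helper37) -/

namespace Pool.Agent.H37.CPX

open Pool.Agent

theorem cj' : S_CJ := H27.CPX.pf_CJ H34.CPX.pf_JEN H27.CPX.pf_SPL H63.CPX.pf_GRD

theorem cx'' (hCV : S_CV) : StatementCX := cx' cj' hCV

theorem rx'' (hCV : S_CV) : StatementRX :=
  H16.CPX.pf_FIR H78.CPX.pf_SYS (rmx' cj' hCV) H23.CPX.pf_FRX H80.CPX.pf_PARM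

end Pool.Agent.H37.CPX
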