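import Pool.Agent.H37.CPX.Asm2
import Pool.Agent.H67.CPX.CV

/-! # MP_c62aed_lc, cutting planes and real monotone circuits of any depth: the theorems (helper37)

There is `c` such that for every `k ≥ c` and all large `n` there are unsatisfiable `k`-CNFs with `n`
variables which have no (semantic, real) cutting planes refutation with fewer than
`2 ^ (n ^ (1 - c / k))` lines, and finite lists of unsatisfiable `k`-CNFs such that every sound real
monotone circuit which accepts half of the list has at least `2 ^ (n ^ (1 - c / k))` gates.
-/

namespace Pool.Agent.H37.CPX

open Pool.Agent

theorem cv' : S_CV := H67.CPX.pf_CV H34.CPX.pf_JEN H27.CPX.pf_SPL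

/-- Cutting planes refutations of any depth. -/
theorem cutting_planes : StatementCX := cx'' cv'

/-- Real monotone circuits of any depth. -/
theorem real_monotone : StatementRX := rx'' cv'

theorem statement : Statement := ⟨cutting_planes, real_monotone⟩

end Pool.Agent.H37.CPX
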