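import Pool.Agent.H37.CP.Stmt

/-!
# Cutting planes of any depth: definitions and targets (helper37, MP_c62aed_lc)

Page `/team-store/H37_CPX.md`.
-/

namespace Pool.Agent.H37.CPX

open Finset
open Pool.Agent.H1.LP (Clause)
open Pool.Agent.H37.CP (Refutable RCircuit RSound RAcc)

/-! ## the statements -/

/-- Cutting planes of any depth: there is `c` such that for every `k ≥ c` and all large `n` some
unsatisfiable CNF with `n` variables, at most `n ^ C` clauses, all of width at most `k`, has only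
cutting planes refutations with at least `2 ^ (n ^ (1 - c / k))` lines. -/
def StatementCX : Prop :=
  ∃ c : ℕ, 1 ≤ c ∧ ∀ k : ℕ, c ≤ k → ∃ C n₀ : ℕ, ∀ n : ℕ, n₀ ≤ n →
    ∃ (m : ℕ) (phi : Fin m → Clause n), m ≤ n ^ C ∧ (∀ i, (phi i).card ≤ k) ∧
      (∀ x, ∃ i, ¬ (phi i).Sat x) ∧
      ∀ s d : ℕ, Refutable phi s d →
        (2 : ℝ) ^ ((n : ℝ) ^ (1 - (c : ℝ) / k)) ≤ s

open Classical in
/-- Real monotone circuits of any depth: there is `c` such that for every `k ≥ c` and all large `n`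
there is a finite list of unsatisfiable CNFs with `n` variables, at most `K n` clauses, all of
width exactly `k`, such that every real monotone circuit which accepts no satisfiable `k`-CNF with
at most `n ^ C` clauses and accepts at least half of the list has at least
`2 ^ (n ^ (1 - c / k))` gates. -/
def StatementRX : Prop :=
  ∃ c : ℕ, 1 ≤ c ∧ ∀ k : ℕ, c ≤ k → ∃ K C n₀ : ℕ, ∀ n : ℕ, n₀ ≤ n →
    ∃ (Y : ℕ) (m : Fin Y → ℕ) (phi : (a : Fin Y) → Fin (m a) → Clause n), 0 < Y ∧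
      (∀ a, m a ≤ K * n ∧
        (∀ i, (phi a i).card = k ∧ ((phi a i).image Prod.fst).card = k) ∧
        ∀ x, ∃ i, ¬ (phi a i).Sat x) ∧
      ∀ Ci : RCircuit n, RSound Ci k (n ^ C) →
        Y ≤ 2 * (univ.filter (fun a => RAcc Ci (phi a))).card →
        (2 : ℝ) ^ ((n : ℝ) ^ (1 - (c : ℝ) / k)) ≤ Ci.size

/-- The theorem. -/
def Statement : Prop := StatementCX ∧ StatementRX

/-! ## flat and spread sets -/

/-- all points of `A` agree on `T` -/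
def Flat {N : ℕ} {Q : Type} (T : Finset (Fin N)) (A : Finset (Fin N → Q)) : Prop :=
  ∀ x ∈ A, ∀ x' ∈ A, ∀ i ∈ T, x i = x' i

open Classical in
/-- the points of `A` with the values `u` on `U` -/
noncomputable def cyl {N : ℕ} {Q : Type} (U : Finset (Fin N)) (u : U → Q)
    (A : Finset (Fin N → Q)) : Finset (Fin N → Q) :=
  A.filter (fun x => ∀ i : U, x i = u i)

/-- `A` is spread outside `T` -/
def Spr {N : ℕ} {Q : Type} (E c : ℝ) (T : Finset (Fin N)) (A : Finset (Fin N → Q)) : Prop :=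
  ∀ U : Finset (Fin N), U.Nonempty → Disjoint U T → ∀ u : U → Q,
    ((cyl U u A).card : ℝ) * E ^ U.card ≤ c * A.card

/-- `S_JEN`: values on a larger set; `b ^ 2` = size of the alphabet -/
def S_JEN : Prop :=
  ∀ (N : ℕ) (Q : Type) [Fintype Q] (b : ℝ) (T T' U : Finset (Fin N)) (A : Finset (Fin N → Q)),
    0 ≤ b → b ^ 2 = Fintype.card Q → T ⊆ T' → Flat T A →
    (∀ w : T' → Q, Flat T' (cyl T' w A)) ∧
    ((A.card : ℝ) ≤ (Fintype.card Q : ℝ) ^ (N - T.card)) ∧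
    (((univ.filter (fun w : T' → Q => (cyl T' w A).Nonempty)).card : ℝ) ≤
      (Fintype.card Q : ℝ) ^ (T' \ T).card) ∧
    (∑ w : T' → Q, Real.sqrt ((cyl T' w A).card) ≤ b ^ (T' \ T).card * Real.sqrt A.card) ∧
    (U ⊆ T' → ∑ w : T' → Q, Real.sqrt ((cyl T' w A).card) ≤
      b ^ (T' \ (T ∪ U)).card * ∑ u : U → Q, Real.sqrt ((cyl U u A).card))

/-- `S_GRD`: greedy decomposition -/
def S_GRD : Prop :=
  ∀ (N : ℕ) (Q : Type) [Fintype Q] (e : ℝ) (T : Finset (Fin N)) (A : Finset (Fin N → Q)), 0 < e →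
    ∃ (C : Finset (Fin N) → Finset (Fin N → Q)) (R : Finset (Fin N → Q)),
      (∀ U, C U ⊆ A) ∧ R ⊆ A ∧ (∀ U, (C U).Nonempty → U.Nonempty ∧ Disjoint U T) ∧
      (∀ U U', U ≠ U' → Disjoint (C U) (C U')) ∧ (∀ U, Disjoint (C U) R) ∧
      (∀ x ∈ A, x ∈ R ∨ ∃ U, x ∈ C U) ∧ Spr (e ^ 2) 1 T R ∧
      2 * (∑ U : Finset (Fin N), (∑ u : U → Q, Real.sqrt ((cyl U u (C U)).card)) *
        (1 / (4 * e)) ^ U.card) + Real.sqrt R.card ≤ Real.sqrt A.card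

/-- `S_MED`: median -/
def S_MED : Prop :=
  ∀ (α : Type) (A : Finset α) (u : α → ℝ), ∃ θ : ℝ,
    2 * (A.filter (fun x => θ < u x)).card ≤ A.card ∧
    A.card ≤ 2 * (A.filter (fun x => θ ≤ u x)).card

/-- `S_SUBB`: `S_MED → S_SUBB`, a box covered by two triangles -/
def S_SUBB : Prop :=
  ∀ (α β : Type) (A : Finset α) (B : Finset β) (u1 u2 : α → ℝ) (w1 w2 : β → ℝ),
    (∀ x ∈ A, ∀ y ∈ B, w1 y < u1 x ∨ w2 y < u2 x) →
    ∃ F ⊆ A, ∃ G ⊆ B, A.card ≤ 2 * F.card ∧ B.card ≤ 2 * G.card ∧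
      ((∀ x ∈ F, ∀ y ∈ G, w1 y < u1 x) ∨ (∀ x ∈ F, ∀ y ∈ G, w2 y < u2 x))

/-- `S_SUMU`: sums over all sets -/
def S_SUMU : Prop :=
  ∀ N z : ℕ, 1 ≤ N → 1 ≤ z →
    (∑ U ∈ univ.filter (fun U : Finset (Fin N) => U.Nonempty),
      (1 / (8 * (N : ℝ))) ^ U.card ≤ 1 / 7) ∧
    (∑ U ∈ univ.filter (fun U : Finset (Fin N) => U.Nonempty),
      (1 / (64 * (N : ℝ) * z)) ^ U.card ≤ 1 / (32 * z))

/-! ## systems of equations -/

/-- signs -/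
def sgn (a : ZMod 2) : ℝ := if a = 0 then 1 else -1

/-- characters -/
def chi {N : ℕ} (U : Finset (Fin N)) (z : Fin N → ZMod 2) : ℝ := ∏ i ∈ U, sgn (z i)

/-- `m` equations `∑ i ∈ S j, z i = b j` with `k + 6` variables each, and expansion -/
structure Sy (N m k w0 : ℕ) where
  /-- the variables of the equation -/
  S : Fin m → Finset (Fin N)
  /-- the right hand side -/
  b : Fin m → ZMod 2
  card_S : ∀ j, (S j).card = k + 6
  exp : ∀ J : Finset (Fin m), J.card ≤ 2 * w0 → (k + 4) * J.card ≤ (J.biUnion S).card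

variable {N m k w0 : ℕ}

/-- `1` if `z` satisfies the equation `j`, `-1` otherwise -/
def Sy.v (s : Sy N m k w0) (j : Fin m) (z : Fin N → ZMod 2) : ℝ :=
  sgn (s.b j + ∑ i ∈ s.S j, z i)

/-- the variables of the equations in `J` -/
def Sy.Nb (s : Sy N m k w0) (J : Finset (Fin m)) : Finset (Fin N) := J.biUnion s.S

/-- the variables which occur in an odd number of the equations in `J` -/
def Sy.P (s : Sy N m k w0) (J : Finset (Fin m)) : Finset (Fin N) :=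
  univ.filter (fun i => (J.filter (fun j => i ∈ s.S j)).card % 2 = 1)

/-- the test function -/
def Sy.D (s : Sy N m k w0) (z : Fin N → ZMod 2) : ℝ :=
  ∑ J ∈ univ.filter (fun J : Finset (Fin m) => J.card ≤ w0), ∏ j ∈ J, s.v j z

/-- `(T, J)` is closed -/
def Sy.Closed (s : Sy N m k w0) (T : Finset (Fin N)) (J : Finset (Fin m)) : Prop :=
  ∀ J1 : Finset (Fin m), J1.Nonempty → Disjoint J1 J → J1.card ≤ w0 →
    (k + 3) * J1.card ≤ (s.Nb J1 \ T).card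

/-- `S_SYS`: systems with expansion and without solution -/
def S_SYS : Prop :=
  ∀ k : ℕ, ∃ E B0 : ℕ, 1 ≤ E ∧ ∀ B : ℕ, B0 ≤ B →
    ∃ s : Sy B (2 * B) k (B / E), ∀ z : Fin B → ZMod 2, ∃ j, ∑ i ∈ s.S j, z i ≠ s.b j

/-- `S_CLO`: closure -/
def S_CLO : Prop :=
  ∀ (N m k w0 : ℕ) (s : Sy N m k w0) (T0 : Finset (Fin N)) (J : Finset (Fin m)),
    J.card ≤ T0.card → (s.Nb J \ T0).card ≤ (k + 3) * J.card →
    ∃ J' : Finset (Fin m), J ⊆ J' ∧ J'.card ≤ T0.card ∧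
      (s.Nb J' \ T0).card ≤ (k + 3) * J'.card ∧
      (T0.card ≤ w0 → s.Closed (T0 ∪ s.Nb J') J')

/-- `S_PJN`: many odd variables -/
def S_PJN : Prop :=
  ∀ (N m k w0 : ℕ) (s : Sy N m k w0) (J : Finset (Fin m)) (T : Finset (Fin N)),
    s.P J ⊆ s.Nb J ∧ 2 * (s.Nb J \ T).card ≤ (s.P J \ T).card + (k + 6) * J.card

/-- `S_VPR`: products of the signs -/
def S_VPR : Prop :=
  (∀ a b : ZMod 2, sgn (a + b) = sgn a * sgn b) ∧ (∀ a, sgn a = 1 ∨ sgn a = -1) ∧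
  ∀ (N m k w0 : ℕ) (s : Sy N m k w0) (J : Finset (Fin m)) (z : Fin N → ZMod 2),
    ∏ j ∈ J, s.v j z = (∏ j ∈ J, sgn (s.b j)) * chi (s.P J) z

/-- `S_CAN`: cancellation of `D` if an equation is violated -/
def S_CAN : Prop :=
  ∀ (N m k w0 : ℕ) (s : Sy N m k w0) (z : Fin N → ZMod 2) (j0 : Fin m), s.v j0 z = -1 →
    s.D z = ∑ J ∈ univ.filter (fun J : Finset (Fin m) => J.card = w0 ∧ j0 ∉ J), ∏ j ∈ J, s.v j z

/-- the coefficients in `S_CNS` -/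
def cf {m : ℕ} (Js : Finset (Fin m)) (w0 a : ℕ) : ℕ :=
  (Js.powerset.filter (fun J0 => J0.card + a ≤ w0)).card

open Classical in
/-- `S_CNS`: `D` if the equations in `Js` are satisfied -/
def S_CNS : Prop :=
  ∀ (N m k w0 : ℕ) (s : Sy N m k w0) (z : Fin N → ZMod 2) (Js : Finset (Fin m)),
    (∀ j ∈ Js, s.v j z = 1) →
    s.D z = ∑ J1 ∈ univ.filter (fun J1 : Finset (Fin m) => J1.card ≤ w0 ∧ Disjoint J1 Js),
      (cf Js w0 J1.card : ℝ) * ∏ j ∈ J1, s.v j z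

/-! ## the index gadget -/

/-- pointers -/
abbrev PX (N q : ℕ) := Fin N → Fin q
/-- tables -/
abbrev PY (N q : ℕ) := Fin N → (Fin q → ZMod 2)

/-- the point `y_i (x_i)` -/
def pt {N q : ℕ} (x : PX N q) (y : PY N q) : Fin N → ZMod 2 := fun i => y i (x i)

/-- the number of pairs `(x, y)`, for `q = P ^ 16` -/
def vol (N P : ℕ) : ℝ := ((P : ℝ) ^ 16) ^ N * ((2 : ℝ) ^ (P ^ 16)) ^ N

/-- the error of `S_NEG` -/
noncomputable def tau (m k w0 P : ℕ) : ℝ := 2 ^ m / ((P : ℝ) ^ 8) ^ ((k + 2) * w0)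

/-- `S_OPB`: operator norm -/
def S_OPB : Prop :=
  ∀ (N q : ℕ) (F : Finset (PX N q)) (G : Finset (PY N q)) (U : Finset (Fin N)),
    (∑ x ∈ F, ∑ y ∈ G, chi U (pt x y)) ^ 2 * (q : ℝ) ^ U.card ≤
      ((q : ℝ) ^ N * ((2 : ℝ) ^ q) ^ N) ^ 2

/-- `S_NEG`: `S_CAN → S_VPR → S_OPB → S_PJN → S_NEG`, rectangles where an equation is violated -/
def S_NEG : Prop :=
  ∀ (N m k w0 P : ℕ) (s : Sy N m k w0) (F : Finset (PX N (P ^ 16))) (G : Finset (PY N (P ^ 16)))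
    (j0 : Fin m), 1 ≤ P → (∀ x ∈ F, ∀ y ∈ G, s.v j0 (pt x y) = -1) →
    |∑ x ∈ F, ∑ y ∈ G, s.D (pt x y)| ≤ tau m k w0 P * vol N P

/-- `S_KHI`: moments of a random sum of signs -/
def S_KHI : Prop :=
  ∀ P : ℕ, Even P → ∑ s : Fin (P ^ 16) → ZMod 2, (∑ h, sgn (s h)) ^ (P ^ 8) ≤
    2 ^ (P ^ 16) * (2 * (P : ℝ) ^ 12) ^ (P ^ 8)

/-- `S_BIA`: `S_KHI → S_BIA`, small bias on spread rectangles -/
def S_BIA : Prop :=
  ∀ (N P : ℕ) (T U : Finset (Fin N)) (X' : Finset (PX N (P ^ 16))) (Y' : Finset (PY N (P ^ 16))),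
    Even P → 2 ≤ P → U.Nonempty → Disjoint U T → Spr ((P : ℝ) ^ 14) 4 T X' →
    Spr ((2 : ℝ) ^ (P ^ 16 - P ^ 8)) (2 ^ (P ^ 8 + 1)) T Y' →
    (∑ x ∈ X', ∑ y ∈ Y', chi U (pt x y)) ^ 2 * ((P : ℝ) ^ 2) ^ U.card ≤
      64 ^ U.card * ((X'.card : ℝ) * Y'.card) ^ 2

/-- a box -/
structure Box (s : Sy N m k w0) (P : ℕ) (T : Finset (Fin N)) (J : Finset (Fin m)) (c1 c2 : ℝ)
    (X' : Finset (PX N (P ^ 16))) (Y' : Finset (PY N (P ^ 16))) : Prop where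
  flX : Flat T X'
  flY : Flat T Y'
  nb : s.Nb J ⊆ T
  clo : s.Closed T J
  card : J.card ≤ w0
  con : ∀ x ∈ X', ∀ y ∈ Y', ∀ j ∈ J, s.v j (pt x y) = 1
  spX : Spr ((P : ℝ) ^ 14) c1 T X'
  spY : Spr ((2 : ℝ) ^ (P ^ 16 - P ^ 8)) c2 T Y'

/-! ## numbers -/

/-- the conditions for the numbers -/
structure NumC (N m k w0 P z lam : ℕ) : Prop where
  hk : 1 ≤ k
  hN : 1 ≤ N
  hz : 1 ≤ z
  hP : 16 ≤ P
  hPe : Even P
  hlam : 64 * N * z * (P ^ 16) ^ (k + 7) ≤ 2 ^ lam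
  hr : 50 * (lam + 5) ^ 2 ≤ P ^ 8
  hw : 2 * z ≤ w0
  hm : 16 * m ^ 2 * 64 ^ k ≤ (P ^ 2) ^ k
  ht : 2 ^ (m + (8 * k + 40) * P ^ 16 * z + P ^ 8 + 20) ≤ P ^ (8 * (k + 2) * w0)

/-- `S_POS`: `S_BIA → S_CNS → S_VPR → S_PJN → S_POS`, boxes have positive sums -/
def S_POS : Prop :=
  ∀ (N m k w0 P : ℕ) (s : Sy N m k w0) (T : Finset (Fin N)) (J : Finset (Fin m))
    (X' : Finset (PX N (P ^ 16))) (Y' : Finset (PY N (P ^ 16))), 1 ≤ k → 16 ≤ P → Even P →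
    16 * m ^ 2 * 64 ^ k ≤ (P ^ 2) ^ k → Box s P T J 4 (2 ^ (P ^ 8 + 1)) X' Y' →
    (X'.card : ℝ) * Y'.card ≤ 2 * ∑ x ∈ X', ∑ y ∈ Y', s.D (pt x y)

/-- the weight of the first side: `t = |T|` -/
noncomputable def kX (N P z t uX uY nl nh : ℕ) : ℝ :=
  (1 / 2) ^ z * ((P : ℝ) ^ 8) ^ (N - t) * ((P : ℝ) / 4) ^ uX * (1 / (8 * (N : ℝ))) ^ uY *
    (1 / 32) ^ nl * (8 / 7) ^ nh

/-- the square root of `2 ^ (P ^ 16)` -/
noncomputable def bb (P : ℕ) : ℝ := 2 ^ (P ^ 16 / 2)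

/-- the square root of `2 ^ (P ^ 8)` -/
noncomputable def cc (P : ℕ) : ℝ := 2 ^ (P ^ 8 / 2)

/-- the weight of the second side -/
noncomputable def kY (N P z t uX uY nl nh : ℕ) : ℝ :=
  (1 / 2) ^ z * (bb P) ^ (N - t) * (1 / (P : ℝ) ^ 16) ^ t * (1 / (64 * (N : ℝ) * z)) ^ uX *
    (cc P / 4) ^ uY * (cc P / (32 * z)) ^ nl * (1 - 1 / (16 * z)) ^ nh

/-- `8 N q 2 ^ q` -/
noncomputable def Lam (N P : ℕ) : ℝ := 8 * N * (P : ℝ) ^ 16 * 2 ^ (P ^ 16)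

/-- the bound for the sums at the root -/
noncomputable def MM (N m k w0 P z : ℕ) : ℝ :=
  4 * Lam N P ^ (2 * (k + 4) * z) * 4 ^ (9 * z) * (tau m k w0 P * vol N P)

/-- the bound for the sums -/
noncomputable def mM (N m k w0 P z t nl nh : ℕ) : ℝ :=
  MM N m k w0 P z * (1 / Lam N P) ^ t * (1 / 4) ^ (nl + nh)

/-- the relative size of the boxes -/
noncomputable def rho (k P z lam : ℕ) : ℝ :=
  (1 / 2) ^ (4 * (k + 4) * P ^ 16 * z + 4 * lam * z + 5 * z + 8 + P ^ 8)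

/-- `S_WID`: identities for the weights -/
def S_WID : Prop :=
  ∀ N m k w0 P z t t' c uX uY nl nh : ℕ, 1 ≤ N → 1 ≤ z → 16 ≤ P → Even P → t ≤ t' → t' ≤ N →
    bb P ^ 2 = 2 ^ (P ^ 16) ∧ cc P ^ 2 = 2 ^ (P ^ 8) ∧
    (bb P / cc P) ^ 2 = 2 ^ (P ^ 16 - P ^ 8) ∧
    0 < bb P ∧ 0 < cc P ∧ 0 < kX N P z t uX uY nl nh ∧ 0 < kY N P z t uX uY nl nh ∧
    0 < mM N m k w0 P z t nl nh ∧ 0 < MM N m k w0 P z ∧
    (t + c ≤ t' → kX N P z t' (uX + c) uY nl nh * ((P : ℝ) ^ 8) ^ (t' - (t + c)) =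
      kX N P z t uX uY nl nh * (1 / (4 * (P : ℝ) ^ 7)) ^ c) ∧
    kX N P z t' uX (uY + c) nl nh * ((P : ℝ) ^ 8) ^ (t' - t) =
      kX N P z t uX uY nl nh * (1 / (8 * (N : ℝ))) ^ c ∧
    kX N P z t uX uY (nl + 1) nh = kX N P z t uX uY nl nh * (1 / 32) ∧
    kX N P z t uX uY nl (nh + 1) = kX N P z t uX uY nl nh * (8 / 7) ∧
    kY N P z t' (uX + c) uY nl nh * ((P : ℝ) ^ 16) ^ (t' - t) * bb P ^ (t' - t) =
      kY N P z t uX uY nl nh * (1 / (64 * (N : ℝ) * z)) ^ c ∧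
    (t + c ≤ t' → kY N P z t' uX (uY + c) nl nh * ((P : ℝ) ^ 16) ^ (t' - t) *
      bb P ^ (t' - (t + c)) = kY N P z t uX uY nl nh * (1 / (4 * (bb P / cc P))) ^ c) ∧
    kY N P z t uX uY (nl + 1) nh = kY N P z t uX uY nl nh * (cc P / (32 * z)) ∧
    kY N P z t uX uY nl (nh + 1) = kY N P z t uX uY nl nh * (1 - 1 / (16 * z)) ∧
    mM N m k w0 P z t' nl nh * ((P : ℝ) ^ 16) ^ (t' - t) * ((2 : ℝ) ^ (P ^ 16)) ^ (t' - t) =
      mM N m k w0 P z t nl nh * (1 / (8 * (N : ℝ))) ^ (t' - t) ∧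
    mM N m k w0 P z t (nl + 1) nh = mM N m k w0 P z t nl nh * (1 / 4) ∧
    mM N m k w0 P z t nl (nh + 1) = mM N m k w0 P z t nl nh * (1 / 4)

/-- `S_NXY`: large sets on both sides -/
def S_NXY : Prop :=
  ∀ (N m k w0 P z lam t t0 uX uY nl nh : ℕ) (cA cB : ℝ), NumC N m k w0 P z lam →
    t ≤ N → t ≤ (k + 4) * t0 → t0 ≤ uX + uY → nh ≤ 8 * z + 1 →
    cA ≤ ((P : ℝ) ^ 16) ^ (N - t) → cB ≤ ((2 : ℝ) ^ (P ^ 16)) ^ (N - t) →
    kX N P z t uX uY nl nh ^ 2 < cA → kY N P z t uX uY nl nh ^ 2 < 4 * cB →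
    nh ≤ 8 * z ∧ nl ≤ z ∧ t0 ≤ 2 * z ∧
    ((P : ℝ) ^ 16) ^ (N - t) ≤ 2 ^ (3 * z) * cA ∧
    ((2 : ℝ) ^ (P ^ 16)) ^ (N - t) ≤ 2 ^ (2 * z + 5 + 4 * lam * z) * cB

/-- `S_NUB`: sizes of the boxes -/
def S_NUB : Prop :=
  ∀ (N m k w0 P z lam t nl nh : ℕ) (cA cB : ℝ), NumC N m k w0 P z lam →
    t ≤ N → t ≤ 2 * (k + 4) * z → nl + nh ≤ 9 * z →
    (0 ≤ cA → 0 ≤ cB → ((P : ℝ) ^ 16) ^ (N - t) ≤ 2 ^ (3 * z + 1) * cA →
      ((2 : ℝ) ^ (P ^ 16)) ^ (N - t) ≤ 2 ^ (2 * z + 5 + 4 * lam * z + P ^ 8) * cB →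
      rho k P z lam * vol N P ≤ cA * cB) ∧
    4 * (tau m k w0 P * vol N P) ≤ mM N m k w0 P z t nl nh ∧
    32 * MM N m k w0 P z < rho k P z lam * vol N P ∧ rho k P z lam ≤ 1 / 16 ∧
    4 * tau m k w0 P < rho k P z lam

/-! ## the partition argument -/

/-- A small part `E` of `A` and, for every `B` of the class `cl`, a small part `E'` of `B` can be
removed such that all remaining rectangles contained in `Tri` have a small sum. -/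
def PP {N : ℕ} {QX QY : Type} (Tri : (Fin N → QX) → (Fin N → QY) → Prop)
    (D : (Fin N → QX) → (Fin N → QY) → ℝ) (cl : Finset (Fin N → QY) → Prop)
    (A : Finset (Fin N → QX)) (a ka M : ℝ) : Prop :=
  ∃ E ⊆ A, (E.card : ℝ) ≤ a ∧ ∀ B, cl B → ∃ E' ⊆ B, (E'.card : ℝ) ≤ ka * Real.sqrt B.card ∧
    ∀ F ⊆ A, ∀ G ⊆ B, Disjoint F E → Disjoint G E' → (∀ x ∈ F, ∀ y ∈ G, Tri x y) →
      |∑ x ∈ F, ∑ y ∈ G, D x y| ≤ M

/-- the flat subsets of `Ys` -/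
def clF {N : ℕ} {Q : Type} (Ys : Finset (Fin N → Q)) (T : Finset (Fin N))
    (B : Finset (Fin N → Q)) : Prop := B ⊆ Ys ∧ Flat T B

/-- the flat spread subsets of `Ys` -/
def clS {N : ℕ} {Q : Type} (E : ℝ) (Ys : Finset (Fin N → Q)) (T : Finset (Fin N))
    (B : Finset (Fin N → Q)) : Prop := B ⊆ Ys ∧ Flat T B ∧ Spr E 1 T B

/-- `S_SPL`: sums over the cells of a rectangle -/
def S_SPL : Prop :=
  ∀ (N : ℕ) (QX QY : Type) [Fintype QX] [Fintype QY] (D : (Fin N → QX) → (Fin N → QY) → ℝ)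
    (T T' : Finset (Fin N)) (F : Finset (Fin N → QX)) (G : Finset (Fin N → QY)) (M : ℝ),
    T ⊆ T' → Flat T F → Flat T G → 0 ≤ M →
    (∀ (w : T' → QX) (w' : T' → QY), |∑ x ∈ cyl T' w F, ∑ y ∈ cyl T' w' G, D x y| ≤ M) →
    |∑ x ∈ F, ∑ y ∈ G, D x y| ≤ M * (Fintype.card QX : ℝ) ^ (T' \ T).card *
      (Fintype.card QY : ℝ) ^ (T' \ T).card

open Classical in
/-- `S_CU`: unions -/
def S_CU : Prop :=
  ∀ (N : ℕ) (QX QY : Type) (Tri : (Fin N → QX) → (Fin N → QY) → Prop)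
    (D : (Fin N → QX) → (Fin N → QY) → ℝ) (cl : Finset (Fin N → QY) → Prop) (ι : Type)
    (I : Finset ι) (A : ι → Finset (Fin N → QX)) (a ka M : ι → ℝ),
    (∀ i ∈ I, ∀ j ∈ I, i ≠ j → Disjoint (A i) (A j)) →
    (∀ i ∈ I, PP Tri D cl (A i) (a i) (ka i) (M i)) →
    PP Tri D cl (I.biUnion A) (∑ i ∈ I, a i) (∑ i ∈ I, ka i) (∑ i ∈ I, M i)

/-- `S_CV`: `S_JEN → S_SPL → S_CV`, values on a larger set -/
def S_CV : Prop :=
  ∀ (N : ℕ) (QX QY : Type) [Fintype QX] [Fintype QY] (b : ℝ)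
    (Tri : (Fin N → QX) → (Fin N → QY) → Prop) (D : (Fin N → QX) → (Fin N → QY) → ℝ)
    (Ys : Finset (Fin N → QY)) (T T' : Finset (Fin N)) (A : Finset (Fin N → QX))
    (a : (T' → QX) → ℝ) (ka M : ℝ),
    0 ≤ b → b ^ 2 = Fintype.card QY → T ⊆ T' → Flat T A → 0 ≤ ka → 0 ≤ M →
    (∀ w : T' → QX, PP Tri D (clF Ys T') (cyl T' w A) (a w) ka M) →
    PP Tri D (clF Ys T) A (∑ w, a w)
      (ka * (Fintype.card QX : ℝ) ^ (T' \ T).card * b ^ (T' \ T).card)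
      (M * (Fintype.card QX : ℝ) ^ (T' \ T).card * (Fintype.card QY : ℝ) ^ (T' \ T).card)

open Classical in
/-- `S_CJ`: `S_JEN → S_SPL → S_GRD → S_CJ`, from spread sets `B` to all sets `B` -/
def S_CJ : Prop :=
  ∀ (N : ℕ) (QX QY : Type) [Fintype QX] [Fintype QY] (b e : ℝ)
    (Tri : (Fin N → QX) → (Fin N → QY) → Prop) (D : (Fin N → QX) → (Fin N → QY) → ℝ)
    (Ys : Finset (Fin N → QY)) (T : Finset (Fin N)) (A : Finset (Fin N → QX))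
    (TV : Finset (Fin N) → Finset (Fin N)) (a : (V : Finset (Fin N)) → (TV V → QX) → ℝ)
    (kV MV : Finset (Fin N) → ℝ) (a0 ka k0 M0 : ℝ),
    0 ≤ b → b ^ 2 = Fintype.card QY → 0 < e → Flat T A → 0 ≤ ka → ka ≤ 2 * k0 → 0 ≤ M0 →
    (∀ V, V.Nonempty → Disjoint V T → T ∪ V ⊆ TV V ∧ 0 ≤ kV V ∧ 0 ≤ MV V ∧
      (∀ w : TV V → QX, PP Tri D (clF Ys (TV V)) (cyl (TV V) w A) (a V w) (kV V) (MV V)) ∧
      kV V * (Fintype.card QX : ℝ) ^ (TV V \ T).card * b ^ (TV V \ (T ∪ V)).card ≤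
        ka * (1 / (4 * e)) ^ V.card) →
    PP Tri D (clS (e ^ 2) Ys T) A a0 k0 M0 →
    PP Tri D (clF Ys T) A
      (a0 + ∑ V ∈ univ.filter (fun V : Finset (Fin N) => V.Nonempty ∧ Disjoint V T), ∑ w, a V w)
      k0
      (M0 + ∑ V ∈ univ.filter (fun V : Finset (Fin N) => V.Nonempty ∧ Disjoint V T),
        MV V * (Fintype.card QX : ℝ) ^ (TV V \ T).card * (Fintype.card QY : ℝ) ^ (TV V \ T).card)

/-! ## states -/

/-- a state of the partition argument -/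
structure St (N m : ℕ) where
  /-- fixed coordinates -/
  T0 : Finset (Fin N)
  /-- equations -/
  J : Finset (Fin m)
  /-- number of coordinates fixed by the first side -/
  uX : ℕ
  /-- number of coordinates fixed by the second side -/
  uY : ℕ
  /-- number of low steps -/
  nl : ℕ
  /-- number of high steps -/
  nh : ℕ

/-- all fixed coordinates -/
def St.T (st : St N m) (s : Sy N m k w0) : Finset (Fin N) := st.T0 ∪ s.Nb st.J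

/-- the state is correct -/
structure St.Ok (st : St N m) (s : Sy N m k w0) (z : ℕ) : Prop where
  h1 : st.J.card ≤ st.T0.card
  h2 : (s.Nb st.J \ st.T0).card ≤ (k + 3) * st.J.card
  h3 : st.T0.card ≤ st.uX + st.uY
  h4 : st.T0.card ≤ w0 → s.Closed (st.T s) st.J
  h5 : st.nh ≤ 8 * z + 1

/-- the measure of a state -/
def St.mea (st : St N m) (s : Sy N m k w0) (z : ℕ) : ℕ :=
  (N - (st.T s).card) + (8 * z + 1 - st.nh) + (z + 1 - st.nl)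

/-- `kX` at a state -/
noncomputable def St.kx (st : St N m) (s : Sy N m k w0) (P z : ℕ) : ℝ :=
  kX N P z (st.T s).card st.uX st.uY st.nl st.nh

/-- `kY` at a state -/
noncomputable def St.ky (st : St N m) (s : Sy N m k w0) (P z : ℕ) : ℝ :=
  kY N P z (st.T s).card st.uX st.uY st.nl st.nh

/-- `mM` at a state -/
noncomputable def St.mm (st : St N m) (s : Sy N m k w0) (P z : ℕ) : ℝ :=
  mM N m k w0 P z (st.T s).card st.nl st.nh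

/-- the test function on pairs -/
def DD (s : Sy N m k w0) (P : ℕ) (x : PX N (P ^ 16)) (y : PY N (P ^ 16)) : ℝ := s.D (pt x y)

/-- the triangle `w y < u x` -/
def Tr {X Y : Type} (u : X → ℝ) (w : Y → ℝ) (x : X) (y : Y) : Prop := w y < u x

/-- the claim of the partition argument at a state -/
def PPs (s : Sy N m k w0) (P z : ℕ) (u : PX N (P ^ 16) → ℝ) (w : PY N (P ^ 16) → ℝ)
    (Ys : Finset (PY N (P ^ 16))) (st : St N m) (A : Finset (PX N (P ^ 16))) : Prop :=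
  PP (Tr u w) (DD s P) (clF Ys (st.T s)) A (st.kx s P z * Real.sqrt A.card) (st.ky s P z)
    (st.mm s P z)

/-- the claim holds at all states of smaller measure -/
def IH (s : Sy N m k w0) (P z : ℕ) (u : PX N (P ^ 16) → ℝ) (w : PY N (P ^ 16) → ℝ)
    (Xs : Finset (PX N (P ^ 16))) (Ys : Finset (PY N (P ^ 16))) (n : ℕ) : Prop :=
  ∀ st : St N m, st.Ok s z → st.mea s z < n → ∀ A ⊆ Xs, Flat (st.T s) A → PPs s P z u w Ys st A

/-- There is an alive box in `Tri ∩ (Xs × Ys)`. -/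
def Alive (s : Sy N m k w0) (P : ℕ) (rh : ℝ) (Tri : PX N (P ^ 16) → PY N (P ^ 16) → Prop)
    (Xs : Finset (PX N (P ^ 16))) (Ys : Finset (PY N (P ^ 16))) : Prop :=
  ∃ (T : Finset (Fin N)) (J : Finset (Fin m)) (X' : Finset (PX N (P ^ 16)))
    (Y' : Finset (PY N (P ^ 16))), X' ⊆ Xs ∧ Y' ⊆ Ys ∧ (∀ x ∈ X', ∀ y ∈ Y', Tri x y) ∧
      Box s P T J 2 (2 ^ (P ^ 8)) X' Y' ∧ rh * vol N P ≤ (X'.card : ℝ) * Y'.card

/-- `S_LOW`: `S_NEG → S_LOW`, the low part of a spread rectangle -/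
def S_LOW : Prop :=
  ∀ (N m k w0 P z : ℕ) (rh : ℝ) (s : Sy N m k w0) (u : PX N (P ^ 16) → ℝ)
    (w : PY N (P ^ 16) → ℝ) (Xs : Finset (PX N (P ^ 16))) (Ys : Finset (PY N (P ^ 16)))
    (st : St N m) (A X' : Finset (PX N (P ^ 16))) (B Y' : Finset (PY N (P ^ 16))), 1 ≤ P →
    st.Ok s z → st.T0.card ≤ w0 → ¬ Alive s P rh (Tr u w) Xs Ys → A ⊆ Xs → B ⊆ Ys →
    Flat (st.T s) A → Flat (st.T s) B → Spr ((P : ℝ) ^ 14) 1 (st.T s) A →
    Spr ((2 : ℝ) ^ (P ^ 16 - P ^ 8)) 1 (st.T s) B → X' ⊆ A → Y' ⊆ B →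
    (A.card : ℝ) ≤ 2 * X'.card → (B.card : ℝ) ≤ 2 ^ (P ^ 8) * Y'.card →
    (∀ x ∈ X', ∀ y ∈ Y', w y < u x) → rh * vol N P ≤ (X'.card : ℝ) * Y'.card →
    ∀ F ⊆ A, ∀ G ⊆ B, |∑ x ∈ F, ∑ y ∈ G, DD s P x y| ≤ tau m k w0 P * vol N P

/-- `S_STH`: `S_LOW → S_MED → S_NXY → S_NUB → S_WID → S_JEN → S_STH`, spread `A`, spread `B` -/
def S_STH : Prop :=
  ∀ (N m k w0 P z lam : ℕ) (s : Sy N m k w0) (u : PX N (P ^ 16) → ℝ)
    (w : PY N (P ^ 16) → ℝ) (Xs : Finset (PX N (P ^ 16))) (Ys : Finset (PY N (P ^ 16)))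
    (st : St N m) (A : Finset (PX N (P ^ 16))), NumC N m k w0 P z lam → st.Ok s z →
    st.nh ≤ 8 * z → st.nl ≤ z → ¬ Alive s P (rho k P z lam) (Tr u w) Xs Ys →
    IH s P z u w Xs Ys (st.mea s z) → A ⊆ Xs → Flat (st.T s) A →
    Spr ((P : ℝ) ^ 14) 1 (st.T s) A → st.kx s P z * Real.sqrt A.card < A.card →
    PP (Tr u w) (DD s P) (clS ((2 : ℝ) ^ (P ^ 16 - P ^ 8)) Ys (st.T s)) A
      (27 / 32 * (st.kx s P z * Real.sqrt A.card)) (st.ky s P z * (1 - 1 / (32 * z)))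
      (st.mm s P z / 2)

/-- `S_STM`: `S_CJ → S_CLO → S_WID → S_SUMU → S_JEN → S_STM`, spread `A`, all `B` -/
def S_STM : Prop :=
  ∀ (N m k w0 P z lam : ℕ) (s : Sy N m k w0) (u : PX N (P ^ 16) → ℝ)
    (w : PY N (P ^ 16) → ℝ) (Xs : Finset (PX N (P ^ 16))) (Ys : Finset (PY N (P ^ 16)))
    (st : St N m) (A : Finset (PX N (P ^ 16))), NumC N m k w0 P z lam → st.Ok s z →
    IH s P z u w Xs Ys (st.mea s z) → A ⊆ Xs → Flat (st.T s) A →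
    PP (Tr u w) (DD s P) (clS ((2 : ℝ) ^ (P ^ 16 - P ^ 8)) Ys (st.T s)) A
      (27 / 32 * (st.kx s P z * Real.sqrt A.card)) (st.ky s P z * (1 - 1 / (32 * z)))
      (st.mm s P z / 2) →
    PP (Tr u w) (DD s P) (clF Ys (st.T s)) A (st.kx s P z * Real.sqrt A.card)
      (st.ky s P z * (1 - 1 / (32 * z))) (3 / 4 * st.mm s P z)

/-- `S_STX`: `S_GRD → S_CU → S_CV → S_CLO → S_WID → S_SUMU → S_JEN → S_STX`, all `A`, all `B` -/
def S_STX : Prop :=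
  ∀ (N m k w0 P z lam : ℕ) (s : Sy N m k w0) (u : PX N (P ^ 16) → ℝ)
    (w : PY N (P ^ 16) → ℝ) (Xs : Finset (PX N (P ^ 16))) (Ys : Finset (PY N (P ^ 16)))
    (st : St N m) (A : Finset (PX N (P ^ 16))), NumC N m k w0 P z lam → st.Ok s z →
    IH s P z u w Xs Ys (st.mea s z) → A ⊆ Xs → Flat (st.T s) A →
    (∀ R ⊆ A, Spr ((P : ℝ) ^ 14) 1 (st.T s) R → st.kx s P z * Real.sqrt R.card < R.card →
      PP (Tr u w) (DD s P) (clF Ys (st.T s)) R (st.kx s P z * Real.sqrt R.card)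
        (st.ky s P z * (1 - 1 / (32 * z))) (3 / 4 * st.mm s P z)) →
    PPs s P z u w Ys st A

/-- `S_TRM`: `S_NXY → S_WID → S_JEN → S_TRM`, terminal states -/
def S_TRM : Prop :=
  ∀ (N m k w0 P z lam : ℕ) (s : Sy N m k w0) (u : PX N (P ^ 16) → ℝ)
    (w : PY N (P ^ 16) → ℝ) (Ys : Finset (PY N (P ^ 16)))
    (st : St N m) (A : Finset (PX N (P ^ 16))), NumC N m k w0 P z lam → st.Ok s z →
    Flat (st.T s) A → (8 * z < st.nh ∨ z < st.nl) → PPs s P z u w Ys st A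

/-- `S_REC`: `S_TRM → S_STH → S_STM → S_STX → S_REC`, the recursion -/
def S_REC : Prop :=
  ∀ (N m k w0 P z lam : ℕ) (s : Sy N m k w0) (u : PX N (P ^ 16) → ℝ)
    (w : PY N (P ^ 16) → ℝ) (Xs : Finset (PX N (P ^ 16))) (Ys : Finset (PY N (P ^ 16))),
    NumC N m k w0 P z lam → ¬ Alive s P (rho k P z lam) (Tr u w) Xs Ys →
    ∀ n : ℕ, IH s P z u w Xs Ys n

/-- all rectangles `F × G ⊆ Tri` with `F ⊆ X0`, `G ⊆ Y0` have a small sum -/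
def Small (s : Sy N m k w0) (P : ℕ) (Tri : PX N (P ^ 16) → PY N (P ^ 16) → Prop)
    (X0 : Finset (PX N (P ^ 16))) (Y0 : Finset (PY N (P ^ 16))) (M : ℝ) : Prop :=
  ∀ F ⊆ X0, ∀ G ⊆ Y0, (∀ x ∈ F, ∀ y ∈ G, Tri x y) → |∑ x ∈ F, ∑ y ∈ G, DD s P x y| ≤ M

open Classical in
/-- `S_PART`: `S_REC → S_WID → S_PART`, the partition lemma -/
def S_PART : Prop :=
  ∀ (N m k w0 P z lam : ℕ) (s : Sy N m k w0) (u : PX N (P ^ 16) → ℝ)
    (w : PY N (P ^ 16) → ℝ) (Xs : Finset (PX N (P ^ 16))) (Ys : Finset (PY N (P ^ 16))),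
    NumC N m k w0 P z lam → ¬ Alive s P (rho k P z lam) (Tr u w) Xs Ys →
    ∃ (E : Finset (PX N (P ^ 16))) (E' : Finset (PY N (P ^ 16))),
      (E.card : ℝ) * 2 ^ z ≤ ((P : ℝ) ^ 16) ^ N ∧
      (E'.card : ℝ) * 2 ^ z ≤ ((2 : ℝ) ^ (P ^ 16)) ^ N ∧
      Small s P (Tr u w) (Xs \ E) (Ys \ E') (MM N m k w0 P z)

/-! ## dags of triangles -/

/-- `S_DEP`: dependent choice -/
def S_DEP : Prop :=
  ∀ (V α : Type) (dp : V → ℕ) (Q : V → (V → α) → α → Prop), Nonempty α →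
    (∀ v E E' e, (∀ c, dp c < dp v → E c = E' c) → Q v E e → Q v E' e) →
    (∀ v E, (∀ c, dp c < dp v → Q c E (E c)) → ∃ e, Q v E e) → ∃ E, ∀ v, Q v E (E v)

/-- `S_INN`: `S_SUBB → S_POS → S_NUB → S_INN`, inner nodes -/
def S_INN : Prop :=
  ∀ (N m k w0 P z lam : ℕ) (s : Sy N m k w0) (Tri : PX N (P ^ 16) → PY N (P ^ 16) → Prop)
    (u1 u2 : PX N (P ^ 16) → ℝ) (w1 w2 : PY N (P ^ 16) → ℝ) (Xs : Finset (PX N (P ^ 16)))
    (Ys : Finset (PY N (P ^ 16))), NumC N m k w0 P z lam →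
    (∀ x y, Tri x y → w1 y < u1 x ∨ w2 y < u2 x) →
    Small s P (Tr u1 w1) Xs Ys (MM N m k w0 P z) → Small s P (Tr u2 w2) Xs Ys (MM N m k w0 P z) →
    ¬ Alive s P (rho k P z lam) Tri Xs Ys

/-- `S_LEF`: `S_NEG → S_POS → S_NUB → S_LEF`, leaves -/
def S_LEF : Prop :=
  ∀ (N m k w0 P z lam : ℕ) (s : Sy N m k w0) (Tri : PX N (P ^ 16) → PY N (P ^ 16) → Prop)
    (Xs : Finset (PX N (P ^ 16))) (Ys : Finset (PY N (P ^ 16))) (j : Fin m),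
    NumC N m k w0 P z lam → (∀ x y, Tri x y → s.v j (pt x y) = -1) →
    ¬ Alive s P (rho k P z lam) Tri Xs Ys

/-- `S_ROO`: `S_NUB → S_JEN → S_ROO`, the root -/
def S_ROO : Prop :=
  ∀ (N m k w0 P z lam : ℕ) (s : Sy N m k w0) (Tri : PX N (P ^ 16) → PY N (P ^ 16) → Prop)
    (Xs : Finset (PX N (P ^ 16))) (Ys : Finset (PY N (P ^ 16))),
    NumC N m k w0 P z lam → (∀ x ∈ Xs, ∀ y ∈ Ys, Tri x y) →
    ((P : ℝ) ^ 16) ^ N ≤ 4 * Xs.card → ((2 : ℝ) ^ (P ^ 16)) ^ N ≤ 4 * Ys.card →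
    Alive s P (rho k P z lam) Tri Xs Ys

/-- `S_DAG`: `S_DEP → S_PART → S_INN → S_LEF → S_ROO → S_DAG`, dags of triangles -/
def S_DAG : Prop :=
  ∀ (N m k w0 P z lam : ℕ) (s : Sy N m k w0) (V : Type) [Fintype V]
    (u : V → PX N (P ^ 16) → ℝ) (w : V → PY N (P ^ 16) → ℝ) (dp : V → ℕ)
    (X0 : Finset (PX N (P ^ 16))) (v0 : V), NumC N m k w0 P z lam →
    (∀ v, (∃ j, ∀ x y, w v y < u v x → s.v j (pt x y) = -1) ∨
      ∃ v1 v2, dp v1 < dp v ∧ dp v2 < dp v ∧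
        ∀ x y, w v y < u v x → w v1 y < u v1 x ∨ w v2 y < u v2 x) →
    (∀ x ∈ X0, ∀ y, w v0 y < u v0 x) → ((P : ℝ) ^ 16) ^ N ≤ 2 * X0.card →
    (2 : ℝ) ^ z ≤ 4 * Fintype.card V

/-! ## formulas -/

/-- the assignment of a pair: every variable is a function of `x` or of `y` -/
def asg {n : ℕ} {Y X : Type} (side : Fin n → Bool) (f : Fin n → Y → Bool)
    (g : Fin n → X → Bool) (y : Y) (x : X) (v : Fin n) : Bool :=
  if side v = true then g v x else f v y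

/-- `S_FRU`: the formula -/
def S_FRU : Prop :=
  ∀ (N m k w0 q n : ℕ) (s : Sy N m k w0), 1 ≤ q → 3 * (N * q) ≤ n →
    (∀ z : Fin N → ZMod 2, ∃ j, ∑ i ∈ s.S j, z i ≠ s.b j) →
    ∃ (M : ℕ) (phi : Fin M → Clause n) (side : Fin n → Bool) (f : Fin n → PY N q → Bool)
      (g : Fin n → PX N q → Bool), M ≤ m * (2 * q) ^ (k + 6) + N * (q + 1) ∧
      (∀ i, (phi i).card ≤ 2 * (k + 6)) ∧ (∀ x, ∃ i, ¬ (phi i).Sat x) ∧
      ∀ i, ∃ j, ∀ y x, ¬ (phi i).Sat (asg side f g y x) → s.v j (pt x y) = -1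

/-- `S_CPU`: cutting planes refutations are dags of triangles -/
def S_CPU : Prop :=
  ∀ (Y X : Type) (n m R : ℕ) (phi : Fin m → Clause n) (side : Fin n → Bool)
    (f : Fin n → Y → Bool) (g : Fin n → X → Bool) (Vi : Fin R → X → Y → Prop),
    (∀ i, ∃ e, ∀ y x, ¬ (phi i).Sat (asg side f g y x) → Vi e x y) →
    ∀ s d : ℕ, Refutable phi s d →
      ∃ (u : Fin s → X → ℝ) (w : Fin s → Y → ℝ) (dp : Fin s → ℕ),
        (∀ v, (∃ e, ∀ x y, w v y < u v x → Vi e x y) ∨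
          ∃ v1 v2, dp v1 < dp v ∧ dp v2 < dp v ∧
            ∀ x y, w v y < u v x → w v1 y < u v1 x ∨ w v2 y < u v2 x) ∧
        ∃ v, ∀ x y, w v y < u v x

/-- `S_RMX`: `S_DAG → CP.S_REQ → S_RMX`, real monotone circuits; `FX x` = the formula of `x`,
`FY y` = a satisfiable formula for `y` -/
def S_RMX : Prop :=
  ∀ (N m k w0 P z lam n : ℕ) (s : Sy N m k w0) (FY : PY N (P ^ 16) → Set (Clause n))
    (FX : PX N (P ^ 16) → Set (Clause n)) (X0 : Finset (PX N (P ^ 16))) (Ci : RCircuit n),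
    NumC N m k w0 P z lam →
    (∀ C, ∃ j, ∀ x, C ∈ FX x → ∀ y, C ∉ FY y → s.v j (pt x y) = -1) →
    (∀ y, CP.rval Ci.gate (FY y) Ci.out ≤ 0) → (∀ x ∈ X0, 0 < CP.rval Ci.gate (FX x) Ci.out) →
    ((P : ℝ) ^ 16) ^ N ≤ 2 * X0.card → (2 : ℝ) ^ z ≤ 4 * Ci.size

open Classical in
/-- `S_FRX`: the list of formulas for circuits -/
def S_FRX : Prop :=
  ∀ (N m k w0 q n : ℕ) (s : Sy N m k w0), 1 ≤ q → 1 ≤ w0 → N * q ≤ n →
    (∀ z : Fin N → ZMod 2, ∃ j, ∑ i ∈ s.S j, z i ≠ s.b j) →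
    ∃ (a : PX N q → Fin (m * 2 ^ (k + 6)) → Clause n) (FY : PY N q → Finset (Clause n)),
      (∀ x i, (a x i).card = k + 6 ∧ ((a x i).image Prod.fst).card = k + 6) ∧
      (∀ x v, ∃ i, ¬ (a x i).Sat v) ∧
      (∀ y, (FY y).card ≤ m * (2 * q) ^ (k + 6) ∧
        (∀ C ∈ FY y, C.card = k + 6 ∧ (C.image Prod.fst).card = k + 6) ∧
        ∃ v, ∀ C ∈ FY y, C.Sat v) ∧
      ∀ C : Clause n, ∃ j, ∀ x, (∃ i, a x i = C) → ∀ y, C ∉ FY y → s.v j (pt x y) = -1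

/-! ## parameters and the end -/

/-- `S_PARM`: choice of the parameters -/
def S_PARM : Prop :=
  ∀ k : ℕ, 150 ≤ k → ∀ E B0 : ℕ, 1 ≤ E → ∃ C n₀ : ℕ, ∀ n : ℕ, n₀ ≤ n →
    ∃ N P z lam : ℕ, B0 ≤ N ∧ NumC N (2 * N) k (N / E) P z lam ∧ 3 * (N * P ^ 16) ≤ n ∧
      2 * N * (2 * P ^ 16) ^ (k + 6) + N * (P ^ 16 + 1) ≤ n ^ C ∧
      (2 : ℝ) ^ ((n : ℝ) ^ (1 - 150 / (k : ℝ))) * 4 ≤ 2 ^ z

/-- `S_FIN`: `S_SYS → S_DAG → S_CPU → S_FRU → S_PARM → StatementCX` -/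
def S_FIN : Prop := StatementCX

/-- `S_FIR`: `S_SYS → S_RMX → S_FRX → S_PARM → StatementRX` -/
def S_FIR : Prop := StatementRX

end Pool.Agent.H37.CPX
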